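import Pool.Agent.Helper17_LSP.HSU

/-!
# BLK (squad LSP): the cluster lemma
-/

set_option autoImplicit false

open MeasureTheory Function Matrix

open scoped BigOperators ComplexOrder ComplexConjugate

noncomputable section

namespace Pool.Agent.LE.CL.H17

open Pool.Agent.Anderson hiding box mem_box card_box
open Pool.Agent.LE.MN
open Pool.Agent.LE.CL

variable {d : ℕ}

/-- the kernel matrix of a multiplier -/
def Rmat (Λ : Finset (Site d)) (ρ : UnitAddTorus (Fin d) → ℝ) : Matrix Λ Λ ℂ :=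
  fun x y => ∫ θ, conj (ch (x : Site d) θ) * (ρ θ : ℝ) * ch (y : Site d) θ

theorem Rmat_form (Λ : Finset (Site d)) {ρ : UnitAddTorus (Fin d) → ℝ} (hρ : Continuous ρ)
    (v : Λ → ℂ) :
    star v ⬝ᵥ (Rmat Λ ρ *ᵥ v) = ((∫ θ, ρ θ * ‖hatV v θ‖ ^ 2 : ℝ) : ℂ) := by
  have hint : ∀ x y : Λ, Integrable (fun θ => (conj (v x) * v y) *
      (conj (ch (x : Site d) θ) * (ρ θ : ℝ) * ch (y : Site d) θ)) := by
    intro x y
    apply integrable_of_cont
    have h2 := continuous_ch (x : Site d)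
    have h3 := continuous_ch (y : Site d)
    fun_prop
  rw [← integral_complex_ofReal]
  have h1 : ∀ θ, ((ρ θ * ‖hatV v θ‖ ^ 2 : ℝ) : ℂ) = ∑ x : Λ, ∑ y : Λ,
      (conj (v x) * v y) * (conj (ch (x : Site d) θ) * (ρ θ : ℝ) * ch (y : Site d) θ) := by
    intro θ
    have h2 : ((‖hatV v θ‖ ^ 2 : ℝ) : ℂ) = conj (hatV v θ) * hatV v θ := by
      rw [mul_comm, Complex.mul_conj, Complex.normSq_eq_norm_sq]
    rw [Complex.ofReal_mul, h2]
    unfold hatV
    rw [map_sum, Finset.sum_mul_sum, Finset.mul_sum]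
    apply Finset.sum_congr rfl
    intro x _
    rw [Finset.mul_sum]
    apply Finset.sum_congr rfl
    intro y _
    rw [map_mul]
    ring
  simp only [h1]
  rw [integral_finsetSum _ (fun x _ => integrable_finsetSum _ fun y _ => hint x y)]
  unfold dotProduct
  apply Finset.sum_congr rfl
  intro x _
  rw [integral_finsetSum _ (fun y _ => hint x y)]
  simp only [mulVec, dotProduct, Pi.star_apply, Finset.mul_sum]
  apply Finset.sum_congr rfl
  intro y _
  rw [integral_const_mul]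
  unfold Rmat
  simp only [Complex.star_def]
  ring

theorem Rmat_posSemidef (Λ : Finset (Site d)) {ρ : UnitAddTorus (Fin d) → ℝ}
    (hρ : Continuous ρ) (hρ0 : ∀ θ, 0 ≤ ρ θ) : (Rmat Λ ρ).PosSemidef := by
  rw [posSemidef_iff_dotProduct_mulVec]
  constructor
  · ext x y
    rw [conjTranspose_apply]
    unfold Rmat
    rw [Complex.star_def, ← integral_conj]
    apply integral_congr_ae
    filter_upwards with θ
    rw [map_mul, map_mul, Complex.conj_conj, Complex.conj_ofReal]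
    ring
  · intro v
    rw [Rmat_form Λ hρ]
    rw [Complex.zero_le_real]
    apply integral_nonneg
    intro θ
    have := hρ0 θ
    positivity

theorem Rmat_trace (Λ : Finset (Site d)) (ρ : UnitAddTorus (Fin d) → ℝ) :
    (Matrix.trace (Rmat Λ ρ)).re = Λ.card * ∫ θ, ρ θ := by
  have h1 : ∀ y : Λ, Rmat Λ ρ y y = ((∫ θ, ρ θ : ℝ) : ℂ) := by
    intro y
    unfold Rmat
    rw [← integral_complex_ofReal]
    apply integral_congr_ae
    filter_upwards with θ
    have h : conj (ch (y : Site d) θ) * ch (y : Site d) θ = 1 := by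
      rw [mul_comm, Complex.mul_conj, Complex.normSq_eq_norm_sq, norm_ch]
      norm_num
    linear_combination ((ρ θ : ℝ) : ℂ) * h
  unfold Matrix.trace
  simp only [Matrix.diag_apply, h1, Finset.sum_const, Finset.card_univ, Fintype.card_coe,
    nsmul_eq_mul]
  rw [← Complex.ofReal_natCast, ← Complex.ofReal_mul, Complex.ofReal_re]

/-! ### projections -/

section proj

variable {m : Type} [Fintype m] [DecidableEq m]

theorem proj_pyth {Q : Matrix m m ℂ} (hQ : Q.IsHermitian) (hQQ : Q * Q = Q) (w : m → ℂ) :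
    nsq (Q *ᵥ w) + nsq ((1 - Q) *ᵥ w) = nsq w := by
  have hQH : Qᴴ = Q := hQ
  have h1 := star_dot_self (Q *ᵥ w)
  have h2 := star_dot_self ((1 - Q) *ᵥ w)
  have h3 := star_dot_self w
  have e1 : star (Q *ᵥ w) ⬝ᵥ (Q *ᵥ w) = star w ⬝ᵥ (Q *ᵥ w) := by
    rw [star_mulVec, ← dotProduct_mulVec, mulVec_mulVec, hQH, hQQ]
  have e2 : star ((1 - Q) *ᵥ w) ⬝ᵥ ((1 - Q) *ᵥ w) = star w ⬝ᵥ ((1 - Q) *ᵥ w) := by
    have hH : (1 - Q)ᴴ = 1 - Q := by rw [conjTranspose_sub, conjTranspose_one, hQH]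
    have hq : (1 - Q) * (1 - Q) = 1 - Q := by
      rw [mul_sub, mul_one, sub_mul, one_mul, hQQ]
      simp
    rw [star_mulVec, ← dotProduct_mulVec, mulVec_mulVec, hH, hq]
  have e3 : star w ⬝ᵥ (Q *ᵥ w) + star w ⬝ᵥ ((1 - Q) *ᵥ w) = star w ⬝ᵥ w := by
    rw [← dotProduct_add, ← add_mulVec, add_sub_cancel, one_mulVec]
  rw [← e1, ← e2, h1, h2, h3] at e3
  exact_mod_cast e3

theorem vecMul_proj {Q : Matrix m m ℂ} (hQ : Q.IsHermitian) (u : m → ℂ) :
    ∑ k, ‖∑ x, u x * Q x k‖ ^ 2 = nsq (Q *ᵥ star u) := by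
  unfold nsq
  refine Finset.sum_congr rfl fun k _ => ?_
  have h1 : ∑ x, u x * Q x k = star ((Q *ᵥ star u) k) := by
    simp only [mulVec, dotProduct, star_sum, star_mul', Pi.star_apply, star_star]
    refine Finset.sum_congr rfl fun x _ => ?_
    have : star (Q k x) = Q x k := hQ.apply x k
    rw [this, mul_comm]
  rw [h1, norm_star]

theorem nsq_star (u : m → ℂ) : nsq (star u) = nsq u := by
  unfold nsq
  simp only [Pi.star_apply, norm_star]

theorem proj_hs {Q : Matrix m m ℂ} (hQ : Q.IsHermitian) (hQQ : Q * Q = Q) :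
    ∑ k, nsq (fun x => Q x k) = (Matrix.trace Q).re := by
  have hQH : Qᴴ = Q := hQ
  have h1 : Matrix.trace Q = Matrix.trace (Qᴴ * Q) := by rw [hQH, hQQ]
  rw [h1]
  unfold Matrix.trace
  simp only [Matrix.diag_apply, Complex.re_sum]
  refine Finset.sum_congr rfl fun k _ => ?_
  unfold nsq
  rw [Matrix.mul_apply, Complex.re_sum]
  refine Finset.sum_congr rfl fun x _ => ?_
  rw [conjTranspose_apply, Complex.star_def, mul_comm, Complex.mul_conj,
    Complex.normSq_eq_norm_sq, Complex.ofReal_re]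

end proj

/-- the main term -/
theorem main_term {C : Finset (Site d)} {Q : Matrix C C ℂ} (hQ : Q.IsHermitian)
    (hQQ : Q * Q = Q) {q : UnitAddTorus (Fin d) → ℝ} (hq : Measurable q) {b : ℝ}
    (hb : ∀ θ, |q θ| ≤ b) :
    |(C.card : ℝ) * (∫ θ, q θ) - ∑ k, ∫ θ, q θ * ‖hatV (fun x => Q x k) θ‖ ^ 2| ≤
      b * (Matrix.trace (1 - Q)).re := by
  have hQH : Qᴴ = Q := hQ
  have hH : (1 - Q).IsHermitian := by
    rw [Matrix.IsHermitian, conjTranspose_sub, conjTranspose_one, hQH]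
  have hqq : (1 - Q) * (1 - Q) = 1 - Q := by
    rw [mul_sub, mul_one, sub_mul, one_mul, hQQ]
    simp
  have hpt : ∀ θ : UnitAddTorus (Fin d), ∑ k, ‖hatV (fun x => Q x k) θ‖ ^ 2 +
      ∑ k, ‖hatV (fun x => (1 - Q) x k) θ‖ ^ 2 = C.card := by
    intro θ
    have h1 := vecMul_proj hQ (fun x : C => ch (x : Site d) θ)
    have h2 := vecMul_proj hH (fun x : C => ch (x : Site d) θ)
    have h3 := proj_pyth hQ hQQ (star (fun x : C => ch (x : Site d) θ))
    rw [← h1, ← h2, nsq_star] at h3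
    have h4 : nsq (fun x : C => ch (x : Site d) θ) = C.card := by
      unfold nsq
      simp only [norm_ch, one_pow, Finset.sum_const, Finset.card_univ, Fintype.card_coe,
        nsmul_eq_mul, mul_one]
    rw [h4] at h3
    unfold hatV
    simp only [mul_comm _ (ch _ _)]
    exact h3
  have hqi : Integrable q := by
    refine Integrable.of_bound hq.aestronglyMeasurable b
      (Filter.Eventually.of_forall fun θ => ?_)
    exact hb θ
  have hqh : ∀ w : C → ℂ, Integrable fun θ => q θ * ‖hatV w θ‖ ^ 2 := by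
    intro w
    have h1 : Integrable fun θ => ‖hatV w θ‖ ^ 2 :=
      integrable_of_cont ((continuous_hatV w).norm.pow 2)
    exact h1.bdd_mul hq.aestronglyMeasurable (Filter.Eventually.of_forall fun θ => hb θ)
  have e1 : (C.card : ℝ) * (∫ θ, q θ) - ∑ k, ∫ θ, q θ * ‖hatV (fun x => Q x k) θ‖ ^ 2 =
      ∫ θ, q θ * ∑ k, ‖hatV (fun x => (1 - Q) x k) θ‖ ^ 2 := by
    rw [← integral_const_mul, ← integral_finsetSum _ fun k _ => hqh _,
      ← integral_sub (hqi.const_mul _) (integrable_finsetSum _ fun k _ => hqh _)]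
    refine integral_congr_ae (Filter.Eventually.of_forall fun θ => ?_)
    simp only []
    rw [← Finset.mul_sum, ← hpt θ]
    ring
  have hb0 : 0 ≤ b := (abs_nonneg _).trans (hb 0)
  rw [e1]
  have hcs : Continuous fun θ : UnitAddTorus (Fin d) =>
      ∑ k, ‖hatV (fun x => (1 - Q) x k) θ‖ ^ 2 :=
    continuous_finsetSum _ fun k _ => (continuous_hatV _).norm.pow 2
  have hs0 : ∀ θ : UnitAddTorus (Fin d), 0 ≤ ∑ k, ‖hatV (fun x => (1 - Q) x k) θ‖ ^ 2 :=
    fun θ => Finset.sum_nonneg fun k _ => sq_nonneg _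
  have s1 : |∫ θ, q θ * ∑ k, ‖hatV (fun x => (1 - Q) x k) θ‖ ^ 2| ≤
      ∫ θ, b * ∑ k, ‖hatV (fun x => (1 - Q) x k) θ‖ ^ 2 := by
    refine abs_integral_le_integral_abs.trans ?_
    refine integral_mono_of_nonneg (Filter.Eventually.of_forall fun θ => abs_nonneg _)
      (integrable_of_cont (continuous_const.mul hcs))
      (Filter.Eventually.of_forall fun θ => ?_)
    simp only []
    rw [abs_mul, abs_of_nonneg (hs0 θ)]
    exact mul_le_mul_of_nonneg_right (hb θ) (hs0 θ)
  have hci : ∀ k ∈ Finset.univ, Integrable fun θ : UnitAddTorus (Fin d) =>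
      ‖hatV (fun x => (1 - Q) x k) θ‖ ^ 2 := fun k _ =>
    integrable_of_cont ((continuous_hatV _).norm.pow 2)
  have s2 : ∫ θ, ∑ k, ‖hatV (fun x => (1 - Q) x k) θ‖ ^ 2 =
      ∑ k, nsq (fun x => (1 - Q) x k) := by
    rw [integral_finsetSum _ hci]
    exact Finset.sum_congr rfl fun k _ => parseval _
  rw [integral_const_mul, s2, proj_hs hH hqq] at s1
  exact s1

theorem blk (laq : LaqStmt) (hsu : HsuStmt) (pai : PaiStmt) : BlkStmt := by
  intro d cT CT hd hcT hCT
  obtain ⟨cH, C₂, hcH, hC₂, hH⟩ := hsu d hd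
  obtain ⟨c₀, hc₀, hP⟩ := pai d cT CT C₂ hd hcT hCT hC₂
  have hπ := Real.pi_pos
  set c : ℝ := min (min cH c₀) (min (cT / (1024 * Real.pi * CT ^ 2)) 1) with hc
  have hCT0 : 0 < CT := by linarith
  have hc0 : 0 < c := by
    rw [hc]
    refine lt_min (lt_min hcH hc₀) (lt_min ?_ one_pos)
    positivity
  have hccH : c ≤ cH := (min_le_left _ _).trans (min_le_left _ _)
  have hcc₀ : c ≤ c₀ := (min_le_left _ _).trans (min_le_right _ _)
  have hcT' : c ≤ cT / (1024 * Real.pi * CT ^ 2) := (min_le_right _ _).trans (min_le_left _ _)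
  have hc1 : c ≤ 1 := (min_le_right _ _).trans (min_le_right _ _)
  obtain ⟨c₂, hc₂, hP⟩ := hP c hc0 hcc₀
  refine ⟨c, c₂, hc0, hc1, hc₂, ?_⟩
  intro C C' B D ψ F e E η ω ε τ T q hη hηc hω hωη hε hτ hτL hT1 hT2 hCne hCC hs hq
  have hη1 : η ≤ 1 := hηc.trans hc1
  have hden : ∀ θ : UnitAddTorus (Fin d), 0 < (sy θ - E) ^ 2 + η ^ 2 := fun θ => by positivity
  have hsy := continuous_sy (d := d)
  have hcX : Continuous fun θ : UnitAddTorus (Fin d) => (sy θ - E) ^ 2 + η ^ 2 := by fun_prop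
  set ρ : UnitAddTorus (Fin d) → ℝ := fun θ => η ^ 2 / ((sy θ - E) ^ 2 + η ^ 2) with hρdef
  have hcρ : Continuous ρ := continuous_const.div hcX fun θ => (hden θ).ne'
  have hρ0 : ∀ θ, 0 ≤ ρ θ := fun θ => div_nonneg (sq_nonneg _) (hden θ).le
  obtain ⟨Q, hQ, hQQ, htr, hform⟩ := laq C C' (Rmat C' ρ) (fun y x => ψ x y)
    (Rmat_posSemidef C' hcρ hρ0)
  set v : C → C → ℂ := fun k x => Q x k with hv
  have hN : (0 : ℝ) ≤ C.card := Nat.cast_nonneg _
  -- Bessel
  have hBes : Bes C v := by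
    intro u
    have h1 := vecMul_proj hQ u
    have h2 := proj_pyth hQ hQQ (star u)
    rw [nsq_star] at h2
    have h3 := nsq_nonneg ((1 - Q) *ᵥ star u)
    show ∑ k, ‖∑ x, u x * Q x k‖ ^ 2 ≤ ∑ x, ‖u x‖ ^ 2
    rw [h1]
    unfold nsq at h2 h3 ⊢
    linarith
  -- the form
  have hA : ∀ k, ∫ θ, η ^ 2 / ((sy θ - E) ^ 2 + η ^ 2) * ‖hatS C' (lin C ψ (v k)) θ‖ ^ 2 ≤
      1 / 2 * ∑ y ∈ C', ‖lin C ψ (v k) y‖ ^ 2 := by
    intro k
    have h1 := hform (Pi.single k 1)
    have h2 : ((fun (y : C') (x : C) => ψ x y : Matrix C' C ℂ) *ᵥ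
        (Q *ᵥ (Pi.single k 1 : C → ℂ))) = fun y : C' => lin C ψ (v k) y := by
      funext y
      rw [mulVec_single_one]
      simp only [mulVec, dotProduct]
      unfold lin
      exact Finset.sum_congr rfl fun x _ => mul_comm _ _
    rw [h2, Rmat_form C' hcρ, Complex.ofReal_re] at h1
    have h3 : nsq (fun y : C' => lin C ψ (v k) y) = ∑ y ∈ C', ‖lin C ψ (v k) y‖ ^ 2 := by
      unfold nsq
      exact Finset.sum_coe_sort C' (fun y => ‖lin C ψ (v k) y‖ ^ 2)
    rw [h3] at h1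
    simp only [hatS_eq_hatV]
    exact h1
  have hlog : 0 ≤ 1 + Real.log (1 / η) := by
    have : 0 ≤ Real.log (1 / η) := Real.log_nonneg (by rw [le_div_iff₀ hη]; linarith)
    linarith
  have hcη : c * η ≤ cH * η := mul_le_mul_of_nonneg_right hccH hη.le
  have hεη : ε ≤ η := by
    have := mul_le_mul_of_nonneg_right hc1 hη.le
    linarith
  have hHS := hH C C' B D ψ F e E η ω ε τ v hη hη1 hω (hωη.trans hcη) hεη hτ
    (hτL.trans hccH) hs hBes hA
  refine hP C C' B D ψ F e E η ω ε τ T q v hη hη1 hω hωη hε hτ hτL hT1 hT2 hCne hs hq hBes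
    hHS.1 hHS.2 ?_
  -- the main term
  obtain ⟨hqm, hqb, hqI, -, -, -⟩ := hq
  have hmain := main_term hQ hQQ hqm hqb
  have hT0 : 0 < T := lt_of_lt_of_le (by positivity) hT1
  have htr2 : (Matrix.trace (1 - Q)).re ≤ 512 * Real.pi * η * C.card := by
    refine htr.trans ?_
    rw [Rmat_trace]
    have hI : ∫ θ, ρ θ ≤ η * (128 * Real.pi) := by
      have e1 : ∫ θ, ρ θ = η * ∫ θ : UnitAddTorus (Fin d), ker η (sy θ - E) := by
        rw [← integral_const_mul]
        refine integral_congr_ae (Filter.Eventually.of_forall fun θ => ?_)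
        simp only [ker, hρdef]
        have := (hden θ).ne'
        field_simp
      rw [e1]
      exact mul_le_mul_of_nonneg_left (integral_ker_le hd hη E) hη.le
    have hcc : (C'.card : ℝ) ≤ 2 * C.card := by exact_mod_cast hCC
    calc 2 * (C'.card * ∫ θ, ρ θ) ≤ 2 * (C'.card * (η * (128 * Real.pi))) := by
          have := mul_le_mul_of_nonneg_left hI (Nat.cast_nonneg (α := ℝ) C'.card)
          linarith
      _ ≤ 2 * ((2 * C.card) * (η * (128 * Real.pi))) := by
          have := mul_le_mul_of_nonneg_right hcc (by positivity : 0 ≤ η * (128 * Real.pi))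
          linarith
      _ = 512 * Real.pi * η * C.card := by ring
  have herr : CT * T * (Matrix.trace (1 - Q)).re ≤ cT / 2 * C.card := by
    calc CT * T * (Matrix.trace (1 - Q)).re ≤ CT * T * (512 * Real.pi * η * C.card) :=
          mul_le_mul_of_nonneg_left htr2 (by positivity)
      _ ≤ CT * (CT * (c / η)) * (512 * Real.pi * η * C.card) := by
          refine mul_le_mul_of_nonneg_right ?_ (by positivity)
          exact mul_le_mul_of_nonneg_left hT2 hCT0.le
      _ = 512 * Real.pi * CT ^ 2 * c * C.card := by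
          field_simp
      _ ≤ 512 * Real.pi * CT ^ 2 * (cT / (1024 * Real.pi * CT ^ 2)) * C.card := by
          refine mul_le_mul_of_nonneg_right ?_ hN
          exact mul_le_mul_of_nonneg_left hcT' (by positivity)
      _ = cT / 2 * C.card := by
          field_simp
          ring
  have hfin : cT * C.card ≤ |(C.card : ℝ) * ∫ θ, q θ| := by
    rw [abs_mul, abs_of_nonneg hN, mul_comm]
    exact mul_le_mul_of_nonneg_left hqI hN
  have htri := abs_sub_abs_le_abs_sub ((C.card : ℝ) * ∫ θ, q θ)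
    (∑ k, ∫ θ, q θ * ‖hatV (fun x => Q x k) θ‖ ^ 2)
  show cT / 2 * C.card ≤ |∑ k, ∫ θ, q θ * ‖hatV (fun x => Q x k) θ‖ ^ 2|
  linarith

end Pool.Agent.LE.CL.H17
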