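import Pool.Agent.LE.StmtsP
import Pool.Agent.Helper17_Anderson.Kappa

/-!
# HSU (squad LSP): the upper bound in the Hilbert-Schmidt norm
-/

set_option autoImplicit false

open MeasureTheory Function

open scoped BigOperators ComplexConjugate

noncomputable section

namespace Pool.Agent.LE.CL.H17

open Pool.Agent.Anderson hiding box mem_box card_box
open Pool.Agent.LE.MN
open Pool.Agent.LE.CL

variable {d : ℕ}

/-! ### linear combinations -/

theorem lin_zero {C : Finset (Site d)} {ψ : Site d → Site d → ℂ} {y : Site d} (v : C → ℂ)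
    (h : ∀ x ∈ C, ψ x y = 0) : lin C ψ v y = 0 := by
  unfold lin
  refine Finset.sum_eq_zero fun x _ => ?_
  rw [h x x.2, mul_zero]

theorem lin_lap (C : Finset (Site d)) (ψ : Site d → Site d → ℂ) (v : C → ℂ) (y : Site d) :
    lap (lin C ψ v) y = ∑ x : C, v x * lap (ψ x) y := by
  unfold lap lin
  simp only [Finset.mul_sum, mul_add]
  rw [Finset.sum_comm]
  simp only [Finset.sum_add_distrib]

/-- the equation for the linear combinations -/
theorem lin_eq {C : Finset (Site d)} {D : Site d → ℝ} {ψ F e : Site d → Site d → ℂ} {E : ℝ}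
    (h : ∀ x ∈ C, ∀ y, lap (ψ x) y + (D y : ℂ) * ψ x y - (E : ℂ) * ψ x y =
      F x y + e x y - if y = x then 1 else 0) (v : C → ℂ) (y : Site d) :
    lap (lin C ψ v) y + (D y : ℂ) * lin C ψ v y - (E : ℂ) * lin C ψ v y =
      lin C F v y + lin C e v y - lin C (fun x y => if y = x then 1 else 0) v y := by
  rw [lin_lap]
  unfold lin
  rw [Finset.mul_sum, Finset.mul_sum, ← Finset.sum_add_distrib, ← Finset.sum_sub_distrib,
    ← Finset.sum_add_distrib, ← Finset.sum_sub_distrib]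
  refine Finset.sum_congr rfl fun x _ => ?_
  have := h x x.2 y
  linear_combination v x * this

theorem hatS_lin_delta {C B : Finset (Site d)} (hCB : C ⊆ B) (v : C → ℂ)
    (θ : UnitAddTorus (Fin d)) :
    hatS B (lin C (fun x y => if y = x then 1 else 0) v) θ = hatV v θ := by
  unfold hatS hatV lin
  simp only [Finset.sum_mul]
  rw [Finset.sum_comm]
  refine Finset.sum_congr rfl fun x _ => ?_
  rw [Finset.sum_eq_single (x : Site d)]
  · rw [if_pos rfl, mul_one]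
  · intro y _ hy
    rw [if_neg hy, mul_zero, zero_mul]
  · intro h
    exact absurd (hCB x.2) h

theorem hatS_sub_set {C' B : Finset (Site d)} (hCB : C' ⊆ B) {w : Site d → ℂ}
    (hw : ∀ y, y ∉ C' → w y = 0) (θ : UnitAddTorus (Fin d)) : hatS B w θ = hatS C' w θ := by
  unfold hatS
  symm
  refine Finset.sum_subset hCB fun y _ hy => ?_
  rw [hw y hy, zero_mul]

theorem hatS_add (B : Finset (Site d)) (w z : Site d → ℂ) (θ : UnitAddTorus (Fin d)) :
    hatS B (fun y => w y + z y) θ = hatS B w θ + hatS B z θ := by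
  unfold hatS
  rw [← Finset.sum_add_distrib]
  exact Finset.sum_congr rfl fun y _ => add_mul _ _ _

theorem hatS_sub (B : Finset (Site d)) (w z : Site d → ℂ) (θ : UnitAddTorus (Fin d)) :
    hatS B (fun y => w y - z y) θ = hatS B w θ - hatS B z θ := by
  unfold hatS
  rw [← Finset.sum_sub_distrib]
  exact Finset.sum_congr rfl fun y _ => sub_mul _ _ _

theorem hatS_smul (B : Finset (Site d)) (c : ℂ) (w : Site d → ℂ) (θ : UnitAddTorus (Fin d)) :
    hatS B (fun y => c * w y) θ = c * hatS B w θ := by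
  unfold hatS
  rw [Finset.mul_sum]
  exact Finset.sum_congr rfl fun y _ => mul_assoc _ _ _

variable {C C' B : Finset (Site d)} {D : Site d → ℝ} {ψ F e : Site d → Site d → ℂ}
  {E η ω ε τ : ℝ}

/-- the Fourier transform of the equation -/
theorem hat_eq (h : Sys C C' B D ψ F e E η ω ε τ) (v : C → ℂ) (θ : UnitAddTorus (Fin d)) :
    ((sy θ - E : ℝ) : ℂ) * hatS C' (lin C ψ v) θ =
      hatS B (lin C F v) θ + hatS B (lin C e v) θ - hatV v θ -
        hatS C' (fun y => (D y : ℂ) * lin C ψ v y) θ := by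
  obtain ⟨h1, h2, h3, h4, h5, -, -, -, -⟩ := h
  have hg : ∀ y, y ∉ C' → lin C ψ v y = 0 := fun y hy => lin_zero v fun x hx => h4 x hx y hy
  have e1 := hat_lap (Λ := C') (Λ' := B) (w := lin C ψ v) hg (fun y hy i => h3 y hy i) θ
  have e2 : hatS B (lap (lin C ψ v)) θ =
      hatS B (fun y => lin C F v y + lin C e v y -
        lin C (fun x y => if y = x then 1 else 0) v y - (D y : ℂ) * lin C ψ v y +
          (E : ℂ) * lin C ψ v y) θ := by
    congr 1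
    funext y
    have := lin_eq h5 v y
    linear_combination this
  rw [hatS_add, hatS_sub, hatS_sub, hatS_add, hatS_smul, hatS_lin_delta (h1.trans h2),
    hatS_sub_set h2 hg, hatS_sub_set h2 (w := fun y => (D y : ℂ) * lin C ψ v y)
      (fun y hy => by rw [hg y hy, mul_zero])] at e2
  push_cast
  rw [sub_mul, ← e1, e2]
  ring

theorem norm_sq_four (a b c e : ℂ) : ‖a + b - c - e‖ ^ 2 ≤
    4 * (‖a‖ ^ 2 + ‖b‖ ^ 2 + ‖c‖ ^ 2 + ‖e‖ ^ 2) := by
  have h1 : ‖a + b - c - e‖ ≤ ‖a‖ + ‖b‖ + ‖c‖ + ‖e‖ := by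
    calc ‖a + b - c - e‖ ≤ ‖a + b - c‖ + ‖e‖ := norm_sub_le _ _
      _ ≤ ‖a + b‖ + ‖c‖ + ‖e‖ := by linarith [norm_sub_le (a + b) c]
      _ ≤ _ := by linarith [norm_add_le a b]
  have h2 : 0 ≤ ‖a + b - c - e‖ := norm_nonneg _
  nlinarith [sq_nonneg (‖a‖ - ‖b‖), sq_nonneg (‖a‖ - ‖c‖), sq_nonneg (‖a‖ - ‖e‖),
    sq_nonneg (‖b‖ - ‖c‖), sq_nonneg (‖b‖ - ‖e‖), sq_nonneg (‖c‖ - ‖e‖)]

/-! ### Bessel -/

theorem bes_hat {v : C → C → ℂ} (hv : Bes C v) (θ : UnitAddTorus (Fin d)) :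
    ∑ k, ‖hatV (v k) θ‖ ^ 2 ≤ C.card := by
  have h := hv (fun x => ch (x : Site d) θ)
  have h1 : ∀ k, ∑ x : C, ch (x : Site d) θ * v k x = hatV (v k) θ := by
    intro k
    unfold hatV
    exact Finset.sum_congr rfl fun x _ => mul_comm _ _
  simp only [h1, norm_ch, one_pow, Finset.sum_const, Finset.card_univ, Fintype.card_coe,
    nsmul_eq_mul, mul_one] at h
  exact h

theorem bes_lin {v : C → C → ℂ} (hv : Bes C v) {e : Site d → Site d → ℂ}
    (he : ∀ x ∈ C, ∑ y ∈ B, ‖e x y‖ ^ 2 ≤ ε) :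
    ∑ k, ∑ y ∈ B, ‖lin C e (v k) y‖ ^ 2 ≤ C.card * ε := by
  rw [Finset.sum_comm]
  calc ∑ y ∈ B, ∑ k, ‖lin C e (v k) y‖ ^ 2 ≤ ∑ y ∈ B, ∑ x : C, ‖e x y‖ ^ 2 := by
        refine Finset.sum_le_sum fun y _ => ?_
        have h := hv (fun x => e x y)
        have h1 : ∀ k, ∑ x : C, e x y * v k x = lin C e (v k) y := by
          intro k
          unfold lin
          exact Finset.sum_congr rfl fun x _ => mul_comm _ _
        simp only [h1] at h
        exact h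
    _ = ∑ x : C, ∑ y ∈ B, ‖e x y‖ ^ 2 := Finset.sum_comm
    _ ≤ ∑ _x : C, ε := Finset.sum_le_sum fun x _ => he x x.2
    _ = C.card * ε := by
        rw [Finset.sum_const, Finset.card_univ, Fintype.card_coe, nsmul_eq_mul]

/-! ### the weighted sums -/

theorem int_nn {f g : UnitAddTorus (Fin d) → ℝ} (hf : Continuous f) (hg : Continuous g)
    (h : ∀ θ, f θ ≤ g θ) : ∫ θ, f θ ≤ ∫ θ, g θ :=
  integral_mono (integrable_of_cont hf) (integrable_of_cont hg) h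

theorem int4 {f₁ f₂ f₃ f₄ : UnitAddTorus (Fin d) → ℝ} (h₁ : Continuous f₁) (h₂ : Continuous f₂)
    (h₃ : Continuous f₃) (h₄ : Continuous f₄) :
    ∫ θ, 4 * (f₁ θ + f₂ θ + f₃ θ + f₄ θ) =
      4 * ((∫ θ, f₁ θ) + (∫ θ, f₂ θ) + (∫ θ, f₃ θ) + (∫ θ, f₄ θ)) := by
  have i₁ := integrable_of_cont h₁
  have i₂ := integrable_of_cont h₂
  have i₃ := integrable_of_cont h₃
  have i₄ := integrable_of_cont h₄
  have e1 : ∫ θ, (f₁ θ + f₂ θ + f₃ θ + f₄ θ) = (∫ θ, (f₁ θ + f₂ θ + f₃ θ)) + ∫ θ, f₄ θ :=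
    integral_add ((i₁.add i₂).add i₃) i₄
  have e2 : ∫ θ, (f₁ θ + f₂ θ + f₃ θ) = (∫ θ, (f₁ θ + f₂ θ)) + ∫ θ, f₃ θ :=
    integral_add (i₁.add i₂) i₃
  have e3 : ∫ θ, (f₁ θ + f₂ θ) = (∫ θ, f₁ θ) + ∫ θ, f₂ θ := integral_add i₁ i₂
  rw [integral_const_mul, e1, e2, e3]

theorem main_ineq (h : Sys C C' B D ψ F e E η ω ε τ) (v : C → C → ℂ)
    {ρ : UnitAddTorus (Fin d) → ℝ} (hρ : Continuous ρ) (hρ0 : ∀ θ, 0 ≤ ρ θ) :
    ∑ k, ∫ θ, ρ θ * ((sy θ - E) ^ 2 * ‖hatS C' (lin C ψ (v k)) θ‖ ^ 2) ≤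
      4 * ((∑ k, ∫ θ, ρ θ * ‖hatS B (lin C F (v k)) θ‖ ^ 2) +
        (∑ k, ∫ θ, ρ θ * ‖hatS B (lin C e (v k)) θ‖ ^ 2) +
        (∑ k, ∫ θ, ρ θ * ‖hatV (v k) θ‖ ^ 2) +
        (∑ k, ∫ θ, ρ θ * ‖hatS C' (fun y => (D y : ℂ) * lin C ψ (v k) y) θ‖ ^ 2)) := by
  have hc : ∀ (Λ : Finset (Site d)) (w : Site d → ℂ),
      Continuous fun θ : UnitAddTorus (Fin d) => ρ θ * ‖hatS Λ w θ‖ ^ 2 := fun Λ w =>
    hρ.mul ((continuous_hatS Λ w).norm.pow 2)
  have hcv : ∀ w : C → ℂ, Continuous fun θ : UnitAddTorus (Fin d) => ρ θ * ‖hatV w θ‖ ^ 2 :=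
    fun w => hρ.mul ((continuous_hatV w).norm.pow 2)
  rw [← Finset.sum_add_distrib, ← Finset.sum_add_distrib, ← Finset.sum_add_distrib,
    Finset.mul_sum]
  refine Finset.sum_le_sum fun k _ => ?_
  have hsy := continuous_sy (d := d)
  refine le_trans ?_ (int4 (hc B (lin C F (v k))) (hc B (lin C e (v k))) (hcv (v k))
    (hc C' (fun y => (D y : ℂ) * lin C ψ (v k) y))).le
  refine int_nn ?_ ?_ fun θ => ?_
  · exact hρ.mul (((hsy.sub continuous_const).pow 2).mul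
      ((continuous_hatS _ _).norm.pow 2))
  · exact continuous_const.mul ((((hc _ _).add (hc _ _)).add (hcv _)).add (hc _ _))
  · have h1 := hat_eq h (v k) θ
    have h2 : (sy θ - E) ^ 2 * ‖hatS C' (lin C ψ (v k)) θ‖ ^ 2 =
        ‖hatS B (lin C F (v k)) θ + hatS B (lin C e (v k)) θ - hatV (v k) θ -
          hatS C' (fun y => (D y : ℂ) * lin C ψ (v k) y) θ‖ ^ 2 := by
      rw [← h1, norm_mul, mul_pow, Complex.norm_real, Real.norm_eq_abs, sq_abs]
    rw [h2]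
    have h3 := norm_sq_four (hatS B (lin C F (v k)) θ) (hatS B (lin C e (v k)) θ)
      (hatV (v k) θ) (hatS C' (fun y => (D y : ℂ) * lin C ψ (v k) y) θ)
    have h4 := mul_le_mul_of_nonneg_left h3 (hρ0 θ)
    linarith

theorem sum_int_le {ρ : UnitAddTorus (Fin d) → ℝ} (hρ : Continuous ρ) {b : ℝ}
    (hb : ∀ θ, ρ θ ≤ b) (Λ : Finset (Site d)) (w : C → Site d → ℂ) :
    ∑ k, ∫ θ, ρ θ * ‖hatS Λ (w k) θ‖ ^ 2 ≤ b * ∑ k, ∑ y ∈ Λ, ‖w k y‖ ^ 2 := by
  rw [Finset.mul_sum]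
  refine Finset.sum_le_sum fun k _ => ?_
  rw [← parsevalS, ← integral_const_mul]
  refine int_nn (hρ.mul ((continuous_hatS _ _).norm.pow 2))
    (continuous_const.mul ((continuous_hatS _ _).norm.pow 2)) fun θ => ?_
  exact mul_le_mul_of_nonneg_right (hb θ) (by positivity)

theorem sum_hatV_le {v : C → C → ℂ} (hv : Bes C v) {ρ : UnitAddTorus (Fin d) → ℝ}
    (hρ : Continuous ρ) (hρ0 : ∀ θ, 0 ≤ ρ θ) :
    ∑ k, ∫ θ, ρ θ * ‖hatV (v k) θ‖ ^ 2 ≤ C.card * ∫ θ, ρ θ := by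
  have hc : ∀ k, Continuous fun θ : UnitAddTorus (Fin d) => ρ θ * ‖hatV (v k) θ‖ ^ 2 :=
    fun k => hρ.mul ((continuous_hatV (v k)).norm.pow 2)
  have hi : ∀ k ∈ Finset.univ,
      Integrable fun θ : UnitAddTorus (Fin d) => ρ θ * ‖hatV (v k) θ‖ ^ 2 :=
    fun k _ => integrable_of_cont (hc k)
  rw [← integral_finsetSum _ hi, ← integral_const_mul]
  refine int_nn ?_ (continuous_const.mul hρ) fun θ => ?_
  · exact continuous_finsetSum _ fun k _ => hρ.mul ((continuous_hatV (v k)).norm.pow 2)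
  · rw [← Finset.mul_sum, mul_comm]
    exact mul_le_mul_of_nonneg_right (bes_hat hv θ) (hρ0 θ)

/-! ### the two inequalities -/

theorem arith_hs {a Y N η t L K κ P : ℝ} (hη : 0 < η) (ha : 0 ≤ a) (hY : 0 ≤ Y) (hN : 0 ≤ N)
    (ht : 0 ≤ t) (hL : 1 ≤ L) (htL : t * L ≤ 1 / 64) (hK : 0 ≤ K) (hκ : κ ≤ K * L)
    (h1 : Y ≤ η * a + 4 * (η * a / 4096 + N + N * κ + t * Y))
    (h2 : η * a ≤ 8 * (η * a / 4096 + N + P * N + t * Y)) (hP : 0 ≤ P) :
    a ≤ ((16 * (1 + P) + 2 * (1 + K)) * 2 + 8 * (1 + K)) * N / η ∧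
      Y ≤ ((16 * (1 + P) + 2 * (1 + K)) * 2 + 8 * (1 + K)) * N * L := by
  set b := η * a with hb
  have hb0 : 0 ≤ b := by positivity
  have ht1 : t ≤ 1 / 64 := by nlinarith
  have htY : t * Y ≤ 1 / 64 * Y := mul_le_mul_of_nonneg_right ht1 hY
  have hNκ : N * κ ≤ N * (K * L) := mul_le_mul_of_nonneg_left hκ hN
  have hNKL : 0 ≤ N * (K * L) := by positivity
  have hY2 : Y ≤ 2 * b + 8 * (N * (1 + K * L)) := by
    rw [mul_add N, mul_one]
    linarith
  have hKL : K * (t * L) ≤ K * (1 / 64) := mul_le_mul_of_nonneg_left htL hK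
  have htY2 : t * Y ≤ b / 32 + N * (1 + K) / 8 := by
    have e1 : t * Y ≤ t * (2 * b + 8 * (N * (1 + K * L))) := mul_le_mul_of_nonneg_left hY2 ht
    have e2 : t * b ≤ 1 / 64 * b := mul_le_mul_of_nonneg_right ht1 hb0
    have e3 : N * (t + K * (t * L)) ≤ N * (1 / 64 + K * (1 / 64)) :=
      mul_le_mul_of_nonneg_left (by linarith) hN
    nlinarith
  have hbN : b ≤ (16 * (1 + P) + 2 * (1 + K)) * N := by nlinarith
  have hPN : 0 ≤ P * N := by positivity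
  have hKN : 0 ≤ K * N := by positivity
  constructor
  · rw [le_div_iff₀ hη]
    have : a * η = b := by rw [hb]; ring
    rw [this]
    nlinarith
  · have hNL : N * 1 ≤ N * L := mul_le_mul_of_nonneg_left hL hN
    have hPL : P * N * 1 ≤ P * N * L := mul_le_mul_of_nonneg_left hL hPN
    have hKL' : K * N * 1 ≤ K * N * L := mul_le_mul_of_nonneg_left hL hKN
    nlinarith

theorem hsu : HsuStmt := by
  intro d hd
  set K : ℝ := 1 + 1024 * Real.pi with hKdef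
  set P : ℝ := 128 * Real.pi with hPdef
  have hπ := Real.pi_pos
  have hK0 : 0 ≤ K := by positivity
  have hP0 : 0 ≤ P := by positivity
  refine ⟨1 / 64, (16 * (1 + P) + 2 * (1 + K)) * 2 + 8 * (1 + K), by norm_num, by nlinarith, ?_⟩
  intro C C' B D ψ F e E η ω ε τ v hη hη1 hω hωη hε hτ hτL hs hv hA
  have hs' := hs
  obtain ⟨h1, h2, h3, h4, h5, h6, hF, he, hKF⟩ := hs'
  have hL : 1 ≤ 1 + Real.log (1 / η) := by
    have : 0 ≤ Real.log (1 / η) := Real.log_nonneg (by rw [le_div_iff₀ hη]; linarith)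
    linarith
  have hκ := kap_le hd E hη hη1
  set a : ℝ := ∑ k, ∑ y ∈ C', ‖lin C ψ (v k) y‖ ^ 2 with hadef
  set Y : ℝ := ∑ k, ∫ θ, md E η θ * ‖hatS C' (lin C ψ (v k)) θ‖ ^ 2 with hYdef
  have ha0 : 0 ≤ a := Finset.sum_nonneg fun k _ => Finset.sum_nonneg fun y _ => by positivity
  have hmd : ∀ θ : UnitAddTorus (Fin d), 0 < md E η θ := fun θ => md_pos hη θ
  have hY0 : 0 ≤ Y := Finset.sum_nonneg fun k _ => integral_nonneg fun θ => by
    have := hmd θ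
    positivity
  have hg : ∀ k, ∀ y, y ∉ C' → lin C ψ (v k) y = 0 := fun k y hy =>
    lin_zero (v k) fun x hx => h4 x hx y hy
  have hcm : Continuous fun θ : UnitAddTorus (Fin d) => md E η θ := continuous_md E η
  have hcmi : Continuous fun θ : UnitAddTorus (Fin d) => (md E η θ)⁻¹ :=
    hcm.inv₀ fun θ => (hmd θ).ne'
  have hsy := continuous_sy (d := d)
  have hden : ∀ θ : UnitAddTorus (Fin d), 0 < (sy θ - E) ^ 2 + η ^ 2 := fun θ => by positivity
  have hcX : Continuous fun θ : UnitAddTorus (Fin d) => (sy θ - E) ^ 2 + η ^ 2 := by fun_prop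
  have hcρ : Continuous fun θ : UnitAddTorus (Fin d) => ((sy θ - E) ^ 2 + η ^ 2)⁻¹ :=
    hcX.inv₀ fun θ => (hden θ).ne'
  have hcn : ∀ k, Continuous fun θ : UnitAddTorus (Fin d) =>
      ‖hatS C' (lin C ψ (v k)) θ‖ ^ 2 := fun k => (continuous_hatS _ _).norm.pow 2
  have hpars : ∀ k, ∫ θ, ‖hatS C' (lin C ψ (v k)) θ‖ ^ 2 = ∑ y ∈ C', ‖lin C ψ (v k) y‖ ^ 2 :=
    fun k => parsevalS _ _
  have hsq : ∀ θ : UnitAddTorus (Fin d), md E η θ ^ 2 = (sy θ - E) ^ 2 + η ^ 2 := fun θ =>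
    Real.sq_sqrt (hden θ).le
  have hminv : ∀ θ : UnitAddTorus (Fin d), (md E η θ)⁻¹ ≤ η⁻¹ := fun θ =>
    inv_anti₀ hη (md_ge hη θ)
  have hρm : ∀ θ : UnitAddTorus (Fin d), ((sy θ - E) ^ 2 + η ^ 2)⁻¹ ≤ η⁻¹ * (md E η θ)⁻¹ := by
    intro θ
    rw [← hsq θ, sq, mul_inv]
    exact mul_le_mul_of_nonneg_right (hminv θ) (inv_nonneg.2 (hmd θ).le)
  have hρb : ∀ θ : UnitAddTorus (Fin d), ((sy θ - E) ^ 2 + η ^ 2)⁻¹ ≤ (η ^ 2)⁻¹ := fun θ =>
    inv_anti₀ (by positivity) (by nlinarith [sq_nonneg (sy θ - E)])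
  -- the norms of the right side
  have hFs : ∑ k, ∑ y ∈ B, ‖lin C F (v k) y‖ ^ 2 ≤ ω ^ 2 * a := by
    rw [hadef, Finset.mul_sum]
    exact Finset.sum_le_sum fun k _ => hF (v k)
  have hes : ∑ k, ∑ y ∈ B, ‖lin C e (v k) y‖ ^ 2 ≤ C.card * ε := bes_lin hv he
  have hN : (0 : ℝ) ≤ C.card := Nat.cast_nonneg _
  have hω2 : ω ^ 2 ≤ η ^ 2 / 4096 := by
    have := pow_le_pow_left₀ hω hωη 2
    nlinarith
  -- the D term
  have hD1 : ∑ k, ∫ θ, (md E η θ)⁻¹ *
      ‖hatS C' (fun y => (D y : ℂ) * lin C ψ (v k) y) θ‖ ^ 2 ≤ τ ^ 2 * Y := by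
    rw [hYdef, Finset.mul_sum]
    exact Finset.sum_le_sum fun k _ => hKF _ (hg k)
  have hD2 : ∑ k, ∫ θ, ((sy θ - E) ^ 2 + η ^ 2)⁻¹ *
      ‖hatS C' (fun y => (D y : ℂ) * lin C ψ (v k) y) θ‖ ^ 2 ≤ η⁻¹ * (τ ^ 2 * Y) := by
    refine le_trans ?_ (mul_le_mul_of_nonneg_left hD1 (inv_nonneg.2 hη.le))
    rw [Finset.mul_sum]
    refine Finset.sum_le_sum fun k _ => ?_
    rw [← integral_const_mul]
    refine int_nn (hcρ.mul ((continuous_hatS _ _).norm.pow 2))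
      (continuous_const.mul (hcmi.mul ((continuous_hatS _ _).norm.pow 2))) fun θ => ?_
    rw [← mul_assoc]
    exact mul_le_mul_of_nonneg_right (hρm θ) (by positivity)
  -- the first inequality
  have hI1 : Y ≤ η * a + ∑ k, ∫ θ, (md E η θ)⁻¹ *
      ((sy θ - E) ^ 2 * ‖hatS C' (lin C ψ (v k)) θ‖ ^ 2) := by
    rw [hYdef, hadef, Finset.mul_sum, ← Finset.sum_add_distrib]
    refine Finset.sum_le_sum fun k _ => ?_
    rw [← hpars k, ← integral_const_mul]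
    have hc1 : Continuous fun θ : UnitAddTorus (Fin d) =>
        η * ‖hatS C' (lin C ψ (v k)) θ‖ ^ 2 := continuous_const.mul (hcn k)
    have hc2 : Continuous fun θ : UnitAddTorus (Fin d) => (md E η θ)⁻¹ *
        ((sy θ - E) ^ 2 * ‖hatS C' (lin C ψ (v k)) θ‖ ^ 2) :=
      hcmi.mul (((hsy.sub continuous_const).pow 2).mul (hcn k))
    rw [← integral_add (integrable_of_cont hc1) (integrable_of_cont hc2)]
    refine int_nn (hcm.mul (hcn k)) (hc1.add hc2) fun θ => ?_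
    have hm := hmd θ
    have e1 : md E η θ ≤ η + (md E η θ)⁻¹ * (sy θ - E) ^ 2 := by
      have e2 : md E η θ = (md E η θ)⁻¹ * ((sy θ - E) ^ 2 + η ^ 2) := by
        rw [← hsq θ]
        field_simp
      have e3 : (md E η θ)⁻¹ * η ^ 2 ≤ η := by
        calc (md E η θ)⁻¹ * η ^ 2 ≤ η⁻¹ * η ^ 2 :=
              mul_le_mul_of_nonneg_right (hminv θ) (by positivity)
          _ = η := by field_simp
      nlinarith
    have e4 := mul_le_mul_of_nonneg_right e1 (sq_nonneg ‖hatS C' (lin C ψ (v k)) θ‖)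
    calc md E η θ * ‖hatS C' (lin C ψ (v k)) θ‖ ^ 2 ≤ _ := e4
      _ = _ := by ring
  have hM1 := main_ineq hs v hcmi fun θ => (inv_nonneg.2 (hmd θ).le)
  have hF1 := sum_int_le (C := C) hcmi hminv B (fun k => lin C F (v k))
  have hE1 := sum_int_le (C := C) hcmi hminv B (fun k => lin C e (v k))
  have hV1 := sum_hatV_le hv hcmi fun θ => (inv_nonneg.2 (hmd θ).le)
  have hηi : 0 < η⁻¹ := inv_pos.2 hη
  have hF1' : η⁻¹ * (ω ^ 2 * a) ≤ η * a / 4096 := by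
    have := mul_le_mul_of_nonneg_left (mul_le_mul_of_nonneg_right hω2 ha0) hηi.le
    refine this.trans (le_of_eq ?_)
    field_simp
  have hE1' : η⁻¹ * (C.card * ε) ≤ C.card := by
    have := mul_le_mul_of_nonneg_left (mul_le_mul_of_nonneg_left hε hN) hηi.le
    refine this.trans (le_of_eq ?_)
    field_simp
  have hR1 : Y ≤ η * a + 4 * (η * a / 4096 + C.card + C.card * kap d E η + τ ^ 2 * Y) := by
    have t1 := mul_le_mul_of_nonneg_left hFs hηi.le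
    have t2 := mul_le_mul_of_nonneg_left hes hηi.le
    have t3 : (C.card : ℝ) * kap d E η = C.card * ∫ θ : UnitAddTorus (Fin d), (md E η θ)⁻¹ := rfl
    linarith
  -- the second inequality
  have hI2 : a ≤ 2 * ∑ k, ∫ θ, ((sy θ - E) ^ 2 + η ^ 2)⁻¹ *
      ((sy θ - E) ^ 2 * ‖hatS C' (lin C ψ (v k)) θ‖ ^ 2) := by
    rw [hadef, Finset.mul_sum]
    refine Finset.sum_le_sum fun k _ => ?_
    have hc1 : Continuous fun θ : UnitAddTorus (Fin d) =>
        η ^ 2 / ((sy θ - E) ^ 2 + η ^ 2) * ‖hatS C' (lin C ψ (v k)) θ‖ ^ 2 :=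
      (continuous_const.div hcX fun θ => (hden θ).ne').mul (hcn k)
    have hc2 : Continuous fun θ : UnitAddTorus (Fin d) => ((sy θ - E) ^ 2 + η ^ 2)⁻¹ *
        ((sy θ - E) ^ 2 * ‖hatS C' (lin C ψ (v k)) θ‖ ^ 2) :=
      hcρ.mul (((hsy.sub continuous_const).pow 2).mul (hcn k))
    have e1 : ∑ y ∈ C', ‖lin C ψ (v k) y‖ ^ 2 =
        (∫ θ, η ^ 2 / ((sy θ - E) ^ 2 + η ^ 2) * ‖hatS C' (lin C ψ (v k)) θ‖ ^ 2) +
        ∫ θ, ((sy θ - E) ^ 2 + η ^ 2)⁻¹ *
          ((sy θ - E) ^ 2 * ‖hatS C' (lin C ψ (v k)) θ‖ ^ 2) := by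
      rw [← integral_add (integrable_of_cont hc1) (integrable_of_cont hc2), ← hpars k]
      refine integral_congr_ae (Filter.Eventually.of_forall fun θ => ?_)
      have := (hden θ).ne'
      simp only []
      field_simp
      ring
    have e2 := hA k
    linarith
  have hM2 := main_ineq hs v hcρ fun θ => (inv_nonneg.2 (hden θ).le)
  have hF2 := sum_int_le (C := C) hcρ hρb B (fun k => lin C F (v k))
  have hE2 := sum_int_le (C := C) hcρ hρb B (fun k => lin C e (v k))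
  have hV2 := sum_hatV_le hv hcρ fun θ => (inv_nonneg.2 (hden θ).le)
  have hker : ∫ θ : UnitAddTorus (Fin d), ((sy θ - E) ^ 2 + η ^ 2)⁻¹ ≤ η⁻¹ * P := by
    have e1 : ∫ θ : UnitAddTorus (Fin d), ((sy θ - E) ^ 2 + η ^ 2)⁻¹ =
        η⁻¹ * ∫ θ : UnitAddTorus (Fin d), ker η (sy θ - E) := by
      rw [← integral_const_mul]
      refine integral_congr_ae (Filter.Eventually.of_forall fun θ => ?_)
      simp only [ker]
      have := (hden θ).ne'
      field_simp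
    rw [e1]
    exact mul_le_mul_of_nonneg_left (integral_ker_le hd hη E) hηi.le
  have hR2 : η * a ≤ 8 * (η * a / 4096 + C.card + P * C.card + τ ^ 2 * Y) := by
    have hη2 : (0 : ℝ) < (η ^ 2)⁻¹ := by positivity
    have t1 := mul_le_mul_of_nonneg_left hFs hη2.le
    have t2 := mul_le_mul_of_nonneg_left hes hη2.le
    have t3 := mul_le_mul_of_nonneg_left hker hN
    have u1 : (η ^ 2)⁻¹ * (ω ^ 2 * a) ≤ η⁻¹ * (η * a / 4096) := by
      have := mul_le_mul_of_nonneg_left hF1' hηi.le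
      refine le_trans (le_of_eq ?_) this
      field_simp
    have u2 : (η ^ 2)⁻¹ * (C.card * ε) ≤ η⁻¹ * C.card := by
      have := mul_le_mul_of_nonneg_left hE1' hηi.le
      refine le_trans (le_of_eq ?_) this
      field_simp
    have u3 : a ≤ η⁻¹ * (8 * (η * a / 4096 + C.card + P * C.card + τ ^ 2 * Y)) := by
      linarith
    have u4 := mul_le_mul_of_nonneg_left u3 hη.le
    refine u4.trans (le_of_eq ?_)
    field_simp
  have key := arith_hs hη ha0 hY0 hN (sq_nonneg τ) hL hτL hK0 hκ hR1 hR2 hP0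
  exact ⟨key.1, key.2⟩

end Pool.Agent.LE.CL.H17
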