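import Pool.Agent.LE.StmtsP

/-!
# LAQ (squad LSP): linear algebra, projection away from the bad eigenvectors
-/

set_option autoImplicit false

open MeasureTheory Function Matrix

open scoped BigOperators ComplexOrder ComplexConjugate

noncomputable section

namespace Pool.Agent.LE.CL.H17

open Pool.Agent.Anderson hiding box mem_box card_box
open Pool.Agent.LE.CL

/-- the projection onto the kernel of a matrix -/
theorem ker_proj {m n : Type} [Fintype m] [DecidableEq m] [Fintype n] [DecidableEq n]
    (B : Matrix n m ℂ) : ∃ Q : Matrix m m ℂ, Q.IsHermitian ∧ Q * Q = Q ∧ B * Q = 0 ∧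
      (Matrix.trace (1 - Q)).re = (B.rank : ℝ) := by
  have hH : (Bᴴ * B).IsHermitian := Matrix.isHermitian_conjTranspose_mul_self B
  obtain ⟨W, μ, hW1, hW2, hHW, hμ⟩ := exists_diag hH
  set e : m → ℂ := fun i => if μ i = 0 then 1 else 0 with he
  have hee : ∀ i, e i * e i = e i := by
    intro i
    simp only [he]
    split_ifs <;> simp
  have hstar : star e = e := by
    funext i
    simp only [he, Pi.star_apply]
    split_ifs <;> simp
  refine ⟨W * diagonal e * Wᴴ, ?_, ?_, ?_, ?_⟩
  · rw [Matrix.IsHermitian, conjTranspose_mul, conjTranspose_mul, conjTranspose_conjTranspose,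
      diagonal_conjTranspose, hstar, Matrix.mul_assoc]
  · calc W * diagonal e * Wᴴ * (W * diagonal e * Wᴴ)
        = W * diagonal e * (Wᴴ * W) * diagonal e * Wᴴ := by simp only [Matrix.mul_assoc]
      _ = W * (diagonal e * diagonal e) * Wᴴ := by
          rw [hW2, Matrix.mul_one, Matrix.mul_assoc W]
      _ = W * diagonal e * Wᴴ := by
          rw [diagonal_mul_diagonal]
          simp only [hee]
  · have h1 : (B * (W * diagonal e * Wᴴ))ᴴ * (B * (W * diagonal e * Wᴴ)) = 0 := by
      calc (B * (W * diagonal e * Wᴴ))ᴴ * (B * (W * diagonal e * Wᴴ))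
          = (W * diagonal e * Wᴴ)ᴴ * (Bᴴ * B) * (W * diagonal e * Wᴴ) := by
            rw [conjTranspose_mul]
            simp only [Matrix.mul_assoc]
        _ = (W * diagonal e * Wᴴ)ᴴ * (W * diagonal (fun i => (μ i : ℂ)) *
              (Wᴴ * W) * diagonal e * Wᴴ) := by
            rw [hHW]
            simp only [Matrix.mul_assoc]
        _ = (W * diagonal e * Wᴴ)ᴴ * (W * (diagonal (fun i => (μ i : ℂ)) *
              diagonal e) * Wᴴ) := by
            rw [hW2, Matrix.mul_one]
            simp only [Matrix.mul_assoc]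
        _ = 0 := by
            have h2 : diagonal (fun i => (μ i : ℂ)) * diagonal e = 0 := by
              rw [diagonal_mul_diagonal]
              have : (fun i => (μ i : ℂ) * e i) = 0 := by
                funext i
                simp only [he, Pi.zero_apply]
                split_ifs with h
                · rw [h]; simp
                · simp
              rw [this]
              exact diagonal_zero
            rw [h2, Matrix.mul_zero, Matrix.zero_mul, Matrix.mul_zero]
    exact Matrix.conjTranspose_mul_self_eq_zero.1 h1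
  · have h1 : (1 : Matrix m m ℂ) - W * diagonal e * Wᴴ =
        W * diagonal (fun i => 1 - e i) * Wᴴ := by
      have : diagonal (fun i => 1 - e i) = (1 : Matrix m m ℂ) - diagonal e := by
        rw [← diagonal_one, diagonal_sub]
      rw [this, Matrix.mul_sub, Matrix.sub_mul, Matrix.mul_one, hW1]
    rw [h1, Matrix.trace_mul_comm, ← Matrix.mul_assoc, hW2, Matrix.one_mul,
      Matrix.trace_diagonal, ← Matrix.rank_conjTranspose_mul_self B,
      hH.rank_eq_card_non_zero_eigs, Complex.re_sum, Fintype.card_subtype, ← hμ]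
    have h3 : ∀ i, (1 - e i).re = if μ i ≠ 0 then (1 : ℝ) else 0 := by
      intro i
      simp only [he]
      by_cases h : μ i = 0
      · rw [if_pos h, if_neg (not_not.2 h), sub_self, Complex.zero_re]
      · rw [if_neg h, if_pos h, sub_zero, Complex.one_re]
    rw [Finset.sum_congr rfl fun i _ => h3 i, Finset.sum_boole]

/-- **LAQ** -/
theorem laq : LaqStmt := by
  intro m n _ _ _ _ A Ψ hA
  obtain ⟨U, l, hU1, hU2, hAU, hl⟩ := exists_diag hA.1
  have hl0 : ∀ i, 0 ≤ l i := fun i => by rw [hl]; exact hA.eigenvalues_nonneg i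
  set p : n → ℂ := fun i => if 1 / 2 < l i then 1 else 0 with hp
  obtain ⟨Q, hQ1, hQ2, hQ3, hQ4⟩ := ker_proj (diagonal p * (Uᴴ * Ψ))
  refine ⟨Q, hQ1, hQ2, ?_, ?_⟩
  · rw [hQ4]
    have htr : (Matrix.trace A).re = ∑ i, l i := by
      rw [hAU, Matrix.trace_mul_comm, ← Matrix.mul_assoc, hU2, Matrix.one_mul,
        Matrix.trace_diagonal, Complex.re_sum]
      simp only [Complex.ofReal_re]
    have hr : (diagonal p * (Uᴴ * Ψ)).rank ≤ (diagonal p).rank := Matrix.rank_mul_le_left _ _
    have hr2 : (diagonal p).rank = (Finset.univ.filter fun i => 1 / 2 < l i).card := by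
      rw [Matrix.rank_diagonal, Fintype.card_subtype]
      congr 1
      ext i
      simp only [hp, Finset.mem_filter, Finset.mem_univ, true_and]
      by_cases h : 1 / 2 < l i
      · rw [if_pos h]
        exact ⟨fun _ => h, fun _ => one_ne_zero⟩
      · rw [if_neg h]
        exact ⟨fun h' => absurd rfl h', fun h' => absurd h' h⟩
    have h5 : ((Finset.univ.filter fun i => 1 / 2 < l i).card : ℝ) * (1 / 2) ≤ ∑ i, l i := by
      calc ((Finset.univ.filter fun i => 1 / 2 < l i).card : ℝ) * (1 / 2)
          = ∑ i ∈ Finset.univ.filter (fun i => 1 / 2 < l i), (1 / 2 : ℝ) := by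
            rw [Finset.sum_const, nsmul_eq_mul]
        _ ≤ ∑ i ∈ Finset.univ.filter (fun i => 1 / 2 < l i), l i :=
            Finset.sum_le_sum fun i hi => (Finset.mem_filter.1 hi).2.le
        _ ≤ ∑ i, l i := Finset.sum_le_sum_of_subset_of_nonneg (Finset.filter_subset _ _)
            fun i _ _ => hl0 i
    have h6 : ((diagonal p * (Uᴴ * Ψ)).rank : ℝ) ≤
        ((Finset.univ.filter fun i => 1 / 2 < l i).card : ℝ) := by
      rw [← hr2]
      exact_mod_cast hr
    rw [htr]
    linarith
  · intro v
    set x := Ψ *ᵥ (Q *ᵥ v) with hx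
    set z := Uᴴ *ᵥ x with hz
    have hz0 : ∀ i, 1 / 2 < l i → z i = 0 := by
      intro i hi
      have h1 : (diagonal p * (Uᴴ * Ψ) * Q) *ᵥ v = 0 := by
        rw [hQ3, Matrix.zero_mulVec]
      have h2 : (diagonal p * (Uᴴ * Ψ) * Q) *ᵥ v = diagonal p *ᵥ z := by
        rw [hz, hx]
        simp only [Matrix.mulVec_mulVec, Matrix.mul_assoc]
      rw [h2] at h1
      have h3 := congrFun h1 i
      rw [Matrix.mulVec_diagonal] at h3
      simp only [hp, if_pos hi, one_mul, Pi.zero_apply] at h3
      exact h3
    have hzx : nsq z = nsq x := by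
      apply nsq_mulVec_unitary
      rw [conjTranspose_conjTranspose, hU1]
    have h4 : star x ⬝ᵥ (A *ᵥ x) = ∑ i, ((l i * ‖z i‖ ^ 2 : ℝ) : ℂ) := by
      have h5 : A *ᵥ x = U *ᵥ (diagonal (fun i => (l i : ℂ)) *ᵥ z) := by
        rw [hAU, hz]
        simp only [Matrix.mulVec_mulVec, Matrix.mul_assoc]
      rw [h5, dotProduct_mulVec]
      have h6 : star x ᵥ* U = star z := by
        have h7 := star_mulVec Uᴴ x
        rw [conjTranspose_conjTranspose] at h7
        exact h7.symm
      rw [h6, dotProduct]
      refine Finset.sum_congr rfl fun i _ => ?_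
      rw [Matrix.mulVec_diagonal, Pi.star_apply]
      have h7 := Complex.mul_conj (z i)
      rw [Complex.normSq_eq_norm_sq] at h7
      push_cast at h7 ⊢
      rw [← h7, Complex.star_def]
      ring
    rw [h4, Complex.re_sum, ← hzx]
    simp only [Complex.ofReal_re]
    rw [nsq, Finset.mul_sum]
    refine Finset.sum_le_sum fun i _ => ?_
    by_cases hi : 1 / 2 < l i
    · rw [hz0 i hi]
      simp
    · exact mul_le_mul_of_nonneg_right (not_lt.1 hi) (by positivity)

end Pool.Agent.LE.CL.H17
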